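import Mathlib

set_option autoImplicit false

/-!
# Sums over nonzero ideals of a number field
-/

universe u v w

open Filter Topology NumberField

open scoped NumberField nonZeroDivisors

namespace Pool.Agent.Work.MP_2f42a7_al

variable (K : Type u) [Field K] [NumberField K]

/-- number of ideals of norm `n`, as a real number -/
noncomputable def idealCount (n : ℕ) : ℝ := (Nat.card {I : Ideal (𝓞 K) // Ideal.absNorm I = n} : ℝ)

lemma idealCount_nonneg (n : ℕ) : 0 ≤ idealCount K n := Nat.cast_nonneg _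

lemma sum_idealCount_tendsto : Tendsto (fun n : ℕ => (∑ k ∈ Finset.Icc 1 n, idealCount K k) / n)
    atTop (𝓝 (NumberField.dedekindZeta_residue K)) := by
  refine ((Ideal.tendsto_norm_le_div_atTop₀ K).comp tendsto_natCast_atTop_atTop).congr fun n ↦ ?_
  simp only [Function.comp_apply, Nat.cast_le, idealCount, ← Nat.cast_sum]
  congr
  rw [← add_left_inj 1, ← Ideal.card_norm_le_eq_card_norm_le_add_one,
    show Finset.Icc 1 n = Finset.Ioc 0 n from Finset.Icc_succ_left_eq_Ioc _ _,
    show 1 = Nat.card {I : Ideal (𝓞 K) // Ideal.absNorm I = 0} by simp [Ideal.absNorm_eq_zero_iff],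
    Finset.sum_Ioc_add_eq_sum_Icc (n.zero_le),
    ← Finset.card_preimage_eq_sum_card_image_eq (fun k _ ↦ Ideal.finite_setOfPred_absNorm_eq k)]
  simp [Set.coe_eq_subtype]

lemma lseriesSummable {s : ℂ} (hs : 1 < s.re) :
    LSeriesSummable (fun n => (idealCount K n : ℂ)) s := by
  refine LSeriesSummable_of_sum_norm_bigO_and_nonneg (r := 1) ?_ (idealCount_nonneg K)
    zero_le_one hs
  have h1 := (sum_idealCount_tendsto K).isBigO_one ℝ
  have h2 : (fun n : ℕ => (∑ k ∈ Finset.Icc 1 n, idealCount K k)) =ᶠ[atTop]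
      fun n : ℕ => ((∑ k ∈ Finset.Icc 1 n, idealCount K k) / n) * (n : ℝ) := by
    filter_upwards [eventually_ne_atTop 0] with n hn
    field_simp
  refine h2.trans_isBigO ?_
  have h3 := h1.mul (Asymptotics.isBigO_refl (fun n : ℕ => (n : ℝ)) atTop)
  simpa using h3

/-- The sum over nonzero ideals of `N(I)^{-s}` against the sum over the norms. -/
lemma summable_ideals_iff (s : ℝ) :
    (Summable fun I : {I : Ideal (𝓞 K) // I ≠ ⊥} => (Ideal.absNorm I.1 : ℝ) ^ (-s)) ↔
      Summable fun n : ℕ => if n = 0 then 0 else idealCount K n * (n : ℝ) ^ (-s) := by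
  let f : {I : Ideal (𝓞 K) // I ≠ ⊥} → ℕ := fun I => Ideal.absNorm I.1
  have hnn : ∀ x : (Σ n, {I : {I : Ideal (𝓞 K) // I ≠ ⊥} // f I = n}),
      0 ≤ ((fun I : {I : Ideal (𝓞 K) // I ≠ ⊥} => (Ideal.absNorm I.1 : ℝ) ^ (-s)) ∘
        (Equiv.sigmaFiberEquiv f)) x := fun _ => Real.rpow_nonneg (Nat.cast_nonneg _) _
  rw [← (Equiv.sigmaFiberEquiv f).summable_iff, summable_sigma_of_nonneg hnn]
  have hfin : ∀ n, Finite {I : {I : Ideal (𝓞 K) // I ≠ ⊥} // f I = n} := by
    intro n
    have h1 : Finite {I : Ideal (𝓞 K) // Ideal.absNorm I = n} :=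
      (Ideal.finite_setOfPred_absNorm_eq n).to_subtype
    exact Finite.of_injective
      (fun I : {I : {I : Ideal (𝓞 K) // I ≠ ⊥} // f I = n} =>
        (⟨I.1.1, I.2⟩ : {I : Ideal (𝓞 K) // Ideal.absNorm I = n}))
      (fun I J h => Subtype.ext (Subtype.ext (congrArg (fun t => t.1) h)))
  have hval : ∀ (n : ℕ) (I : {I : {I : Ideal (𝓞 K) // I ≠ ⊥} // f I = n}),
      ((fun I : {I : Ideal (𝓞 K) // I ≠ ⊥} => (Ideal.absNorm I.1 : ℝ) ^ (-s)) ∘
        (Equiv.sigmaFiberEquiv f)) ⟨n, I⟩ = (n : ℝ) ^ (-s) := by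
    rintro n ⟨I, rfl⟩
    rfl
  have hcard : ∀ n, n ≠ 0 → (Nat.card {I : {I : Ideal (𝓞 K) // I ≠ ⊥} // f I = n} : ℝ) =
      idealCount K n := by
    intro n hn
    unfold idealCount
    congr 1
    apply Nat.card_congr
    exact
      { toFun := fun I => ⟨I.1.1, I.2⟩
        invFun := fun I => ⟨⟨I.1, by
          intro h0
          have := I.2
          rw [h0] at this
          simp at this
          exact hn this.symm⟩, I.2⟩
        left_inv := fun _ => rfl
        right_inv := fun _ => rfl }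
  have hcard0 : Nat.card {I : {I : Ideal (𝓞 K) // I ≠ ⊥} // f I = 0} = 0 := by
    have : IsEmpty {I : {I : Ideal (𝓞 K) // I ≠ ⊥} // f I = 0} := by
      constructor
      rintro ⟨⟨I, hI⟩, h0⟩
      exact hI (Ideal.absNorm_eq_zero_iff.1 h0)
    exact Nat.card_of_isEmpty
  constructor
  · rintro ⟨-, h⟩
    refine h.congr fun n => ?_
    have : Fintype {I : {I : Ideal (𝓞 K) // I ≠ ⊥} // f I = n} := @Fintype.ofFinite _ (hfin n)
    rw [tsum_congr (hval n), tsum_fintype, Finset.sum_const, nsmul_eq_mul, Finset.card_univ,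
      ← Nat.card_eq_fintype_card]
    split_ifs with hn
    · subst hn
      rw [hcard0]; simp
    · rw [hcard n hn]
  · intro h
    refine ⟨fun n => ?_, ?_⟩
    · have := hfin n
      exact Summable.of_finite
    · refine h.congr fun n => ?_
      have : Fintype {I : {I : Ideal (𝓞 K) // I ≠ ⊥} // f I = n} := @Fintype.ofFinite _ (hfin n)
      rw [tsum_congr (hval n), tsum_fintype, Finset.sum_const, nsmul_eq_mul, Finset.card_univ,
        ← Nat.card_eq_fintype_card]
      split_ifs with hn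
      · subst hn
        rw [hcard0]; simp
      · rw [hcard n hn]

lemma norm_term_eq (s : ℝ) (n : ℕ) :
    ‖LSeries.term (fun n => (idealCount K n : ℂ)) s n‖ =
      if n = 0 then 0 else idealCount K n * (n : ℝ) ^ (-s) := by
  rw [LSeries.norm_term_eq]
  split_ifs with hn
  · rfl
  · rw [Complex.norm_real, Real.norm_of_nonneg (idealCount_nonneg K n), Complex.ofReal_re,
      Real.rpow_neg (Nat.cast_nonneg _), div_eq_mul_inv]

lemma summable_ideals {s : ℝ} (hs : 1 < s) :
    Summable fun I : {I : Ideal (𝓞 K) // I ≠ ⊥} => (Ideal.absNorm I.1 : ℝ) ^ (-s) := by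
  rw [summable_ideals_iff]
  have h1 := (lseriesSummable K (s := (s : ℂ)) (by simpa using hs)).norm
  exact h1.congr fun n => norm_term_eq K s n

lemma not_summable_ideals_one :
    ¬ Summable fun I : {I : Ideal (𝓞 K) // I ≠ ⊥} => (Ideal.absNorm I.1 : ℝ) ^ (-(1 : ℝ)) := by
  rw [summable_ideals_iff]
  intro h
  set B : ℝ := ∑' n : ℕ, if n = 0 then 0 else idealCount K n * (n : ℝ) ^ (-(1 : ℝ)) with hB
  have h1 := NumberField.tendsto_sub_one_mul_dedekindZeta_nhdsGT K
  -- bound
  have h2 : ∀ s : ℝ, 1 < s → ‖NumberField.dedekindZeta K s‖ ≤ B := by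
    intro s hs
    unfold NumberField.dedekindZeta LSeries
    have hsum := (lseriesSummable K (s := (s : ℂ)) (by simpa using hs)).norm
    refine (norm_tsum_le_tsum_norm hsum).trans ?_
    refine hsum.tsum_le_tsum (fun n => ?_) h
    rw [norm_term_eq]
    split_ifs with hn
    · exact le_rfl
    · apply mul_le_mul_of_nonneg_left _ (idealCount_nonneg K n)
      apply Real.rpow_le_rpow_of_exponent_le
      · exact_mod_cast Nat.one_le_iff_ne_zero.2 hn
      · linarith
  have h3 : Tendsto (fun s : ℝ => ((s : ℂ) - 1) * NumberField.dedekindZeta K s) (𝓝[>] 1)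
      (𝓝 0) := by
    have h4 : Tendsto (fun s : ℝ => (s - 1) * B) (𝓝[>] 1) (𝓝 0) := by
      have : Tendsto (fun s : ℝ => (s - 1) * B) (𝓝 1) (𝓝 ((1 - 1) * B)) := by
        apply Tendsto.mul_const
        exact (tendsto_id.sub_const 1)
      rw [sub_self, zero_mul] at this
      exact this.mono_left nhdsWithin_le_nhds
    refine squeeze_zero_norm' ?_ h4
    filter_upwards [self_mem_nhdsWithin] with s hs
    have hs' : 1 < s := hs
    rw [norm_mul]
    have h5 : ‖(s : ℂ) - 1‖ = s - 1 := by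
      rw [← Complex.ofReal_one, ← Complex.ofReal_sub, Complex.norm_real,
        Real.norm_of_nonneg (by linarith)]
    rw [h5]
    exact mul_le_mul_of_nonneg_left (h2 s hs') (by linarith)
  have h6 := tendsto_nhds_unique h1 h3
  have h7 := NumberField.dedekindZeta_residue_ne_zero K
  exact h7 (by exact_mod_cast h6)

end Pool.Agent.Work.MP_2f42a7_al
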