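import Pool.Agent.Work.MP_2f42a7_al.Local
import Pool.Agent.Work.MP_2f42a7_al.IdealSum

set_option autoImplicit false

/-!
# Quotients of the ring of integers by prime powers are chain rings
-/

universe u v w

open NumberField

open scoped NumberField

namespace Pool.Agent.Work.MP_2f42a7_al

variable {K : Type u} [Field K] [NumberField K]

lemma finite_quot (I : Ideal (𝓞 K)) (hI : I ≠ ⊥) : Finite (𝓞 K ⧸ I) :=
  Ideal.finiteQuotientOfFreeOfNeBot I hI

lemma card_quot (I : Ideal (𝓞 K)) : Nat.card (𝓞 K ⧸ I) = Ideal.absNorm I := rfl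

lemma mem_map_pow (P : Ideal (𝓞 K)) (k j : ℕ) (hj : j ≤ k) (y : 𝓞 K) :
    Ideal.Quotient.mk (P ^ k) y ∈ (P ^ j).map (Ideal.Quotient.mk (P ^ k)) ↔ y ∈ P ^ j := by
  rw [← Ideal.mem_comap, Ideal.comap_map_of_surjective _ Ideal.Quotient.mk_surjective,
    ← RingHom.ker_eq_comap_bot, Ideal.mk_ker, sup_eq_left.2 (Ideal.pow_le_pow_right hj)]

/-- `O/P^k` is a chain ring. -/
noncomputable def chainQuot (P : Ideal (𝓞 K)) (hP : P.IsPrime) (hP0 : P ≠ ⊥) (k : ℕ) :
    Chain (𝓞 K ⧸ P ^ k) k (Ideal.absNorm P) where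
  M j := (P ^ j).map (Ideal.Quotient.mk (P ^ k))
  anti := fun i j hij => Ideal.map_mono (Ideal.pow_le_pow_right hij)
  zero := by
    rw [pow_zero, Ideal.one_eq_top, Ideal.map_top]
  top := Ideal.map_quotient_self _
  card := by
    intro j hj
    have hPk : P ^ k ≠ ⊥ := pow_ne_zero k hP0
    have hfin : Finite (𝓞 K ⧸ P ^ k) := finite_quot _ hPk
    have h1 := Submodule.card_eq_card_quotient_mul_card
      ((P ^ j).map (Ideal.Quotient.mk (P ^ k)))
    have h2 : Nat.card ((𝓞 K ⧸ P ^ k) ⧸ (P ^ j).map (Ideal.Quotient.mk (P ^ k))) =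
        Ideal.absNorm P ^ j := by
      rw [Nat.card_congr (DoubleQuot.quotQuotEquivQuotOfLE (Ideal.pow_le_pow_right hj)).toEquiv,
        card_quot, map_pow]
    have h3 : Nat.card (𝓞 K ⧸ P ^ k) = Ideal.absNorm P ^ k := by rw [card_quot, map_pow]
    rw [h2, h3] at h1
    have hpos : 0 < Ideal.absNorm P ^ j := pow_pos (Nat.pos_of_ne_zero
      (fun h => hP0 (Ideal.absNorm_eq_zero_iff.1 h))) j
    apply Nat.eq_of_mul_eq_mul_left hpos
    rw [← pow_add, Nat.add_sub_cancel' hj]
    first
      | exact h1.symm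
      | (rw [mul_comm]; exact h1.symm)
  gen := by
    intro j hj x hx hx'
    obtain ⟨y, rfl⟩ := Ideal.Quotient.mk_surjective x
    rw [mem_map_pow P k j hj.le] at hx
    rw [mem_map_pow P k (j + 1) hj] at hx'
    have hprime : Prime P := Ideal.prime_of_isPrime hP0 hP
    have h1 : Ideal.span {y} ⊔ P ^ k ∣ P ^ k := Ideal.dvd_iff_le.2 le_sup_right
    obtain ⟨i, hik, hi⟩ := (dvd_prime_pow hprime k).1 h1
    have hi' : Ideal.span {y} ⊔ P ^ k = P ^ i := associated_iff_eq.1 hi
    have hij : i = j := by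
      apply le_antisymm
      · by_contra hlt
        push Not at hlt
        apply hx'
        have : y ∈ P ^ i := by
          rw [← hi']
          exact Ideal.mem_sup_left (Ideal.mem_span_singleton_self y)
        exact Ideal.pow_le_pow_right hlt this
      · by_contra hlt
        push Not at hlt
        have h2 : P ^ i ≤ P ^ j := by
          rw [← hi']
          exact sup_le ((Ideal.span_singleton_le_iff_mem _).2 hx) (Ideal.pow_le_pow_right hj.le)
        have h3 : P ^ j ∣ P ^ i := Ideal.dvd_iff_le.2 h2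
        rw [pow_dvd_pow_iff hP0 hprime.not_isUnit] at h3
        omega
    subst hij
    rw [← hi', Ideal.map_sup, Ideal.map_quotient_self, sup_bot_eq, Ideal.map_span,
      Set.image_singleton]

end Pool.Agent.Work.MP_2f42a7_al
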