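import Pool.Agent.Work.MP_2f42a7_al.Count

set_option autoImplicit false

/-!
# The corona of a complete graph: counting
-/

universe u v w

namespace Pool.Agent.Work.MP_2f42a7_al

/-- Parallel vectors of `R²`. -/
def Par {R : Type v} [CommRing R] (p q : R × R) : Prop := p.1 * q.2 = p.2 * q.1

/-- Number of vectors parallel to `p`. -/
noncomputable def L {R : Type v} [CommRing R] (p : R × R) : ℕ := Nat.card {q : R × R // Par p q}

lemma par_comm {R : Type v} [CommRing R] {p q : R × R} (hpq : Par p q) : Par q p := by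
  unfold Par at *
  linear_combination -hpq

variable {R : Type v} [CommRing R] {h : ℕ}

/-- Solutions for the corona, in terms of vectors. -/
def solEquiv : Sol (corona h) R ≃
    Σ p : {p : Fin h → R × R // ∀ i j, i ≠ j → Par (p i) (p j)}, ∀ i, {q : R × R // Par (p.1 i) q}
    where
  toFun s := ⟨⟨fun i => (s.1.1 (toLex (Sum.inl i)), s.1.2 (toLex (Sum.inl i))), fun i j hij =>
      s.2 (toLex (Sum.inl i)) (toLex (Sum.inl j)) hij⟩,
    fun i => ⟨(s.1.1 (toLex (Sum.inr i)), s.1.2 (toLex (Sum.inr i))),
      s.2 (toLex (Sum.inl i)) (toLex (Sum.inr i)) rfl⟩⟩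
  invFun t := ⟨(fun a => Sum.elim (fun i => (t.1.1 i).1) (fun i => (t.2 i).1.1) (ofLex a),
      fun a => Sum.elim (fun i => (t.1.1 i).2) (fun i => (t.2 i).1.2) (ofLex a)), by
    intro a b hab
    rcases ha : ofLex a with i | i <;> rcases hb : ofLex b with j | j <;>
      simp only [corona, ha, hb] at hab <;> simp only [Sum.elim_inl, Sum.elim_inr, ha, hb]
    · exact t.1.2 i j hab
    · subst hab
      exact (t.2 i).2
    · subst hab
      exact par_comm (t.2 i).2⟩
  left_inv s := by
    apply Subtype.ext
    apply Prod.ext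
    · funext a
      rcases ha : ofLex a with i | i
      · have : a = toLex (Sum.inl i) := by rw [← ha]; rfl
        subst this; rfl
      · have : a = toLex (Sum.inr i) := by rw [← ha]; rfl
        subst this; rfl
    · funext a
      rcases ha : ofLex a with i | i
      · have : a = toLex (Sum.inl i) := by rw [← ha]; rfl
        subst this; rfl
      · have : a = toLex (Sum.inr i) := by rw [← ha]; rfl
        subst this; rfl
  right_inv t := rfl

open Classical in
lemma card_sol [Fintype R] : Nat.card (Sol (corona h) R) =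
    ∑ p : Fin h → R × R, if (∀ i j, i ≠ j → Par (p i) (p j)) then ∏ i, L (p i) else 0 := by
  rw [Nat.card_congr solEquiv, Nat.card_sigma]
  simp only [Nat.card_pi]
  rw [← Finset.sum_filter]
  rw [Finset.sum_subtype (F := inferInstance)
    (Finset.univ.filter fun p : Fin h → R × R => ∀ i j, i ≠ j → Par (p i) (p j))
    (p := fun p => ∀ i j, i ≠ j → Par (p i) (p j)) (by intro x; simp)]
  rfl

lemma card_V : Nat.card (Fin h ⊕ₗ Fin h) = 2 * h := by
  rw [Nat.card_congr (ofLex : (Fin h ⊕ₗ Fin h) ≃ _)]
  simp [two_mul]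

/-- The edges of the corona. -/
def edgeEquiv : OEdge (corona h) ≃ {p : Fin h × Fin h // p.1 < p.2} ⊕ Fin h where
  toFun e := match ha : ofLex e.1.1, hb : ofLex e.1.2 with
    | Sum.inl i, Sum.inl j => Sum.inl ⟨(i, j), by
        have h1 := e.2.1
        have ha' : e.1.1 = toLex (Sum.inl i) := by rw [← ha]; rfl
        have hb' : e.1.2 = toLex (Sum.inl j) := by rw [← hb]; rfl
        rw [ha', hb'] at h1
        exact Sum.Lex.inl_lt_inl_iff.1 h1⟩
    | Sum.inl i, Sum.inr _ => Sum.inr i
    | Sum.inr i, _ => Sum.inr i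
  invFun t := match t with
    | Sum.inl p => ⟨(toLex (Sum.inl p.1.1), toLex (Sum.inl p.1.2)),
        Sum.Lex.inl_lt_inl_iff.2 p.2, p.2.ne⟩
    | Sum.inr i => ⟨(toLex (Sum.inl i), toLex (Sum.inr i)), Sum.Lex.inl_lt_inr _ _, rfl⟩
  left_inv e := by
    obtain ⟨⟨a, b⟩, hlt, hadj⟩ := e
    rcases ha : ofLex a with i | i <;> rcases hb : ofLex b with j | j
    · have ha' : a = toLex (Sum.inl i) := by rw [← ha]; rfl
      have hb' : b = toLex (Sum.inl j) := by rw [← hb]; rfl
      subst ha' hb'
      rfl
    · have ha' : a = toLex (Sum.inl i) := by rw [← ha]; rfl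
      have hb' : b = toLex (Sum.inr j) := by rw [← hb]; rfl
      subst ha' hb'
      have hij : i = j := hadj
      subst hij
      rfl
    · have ha' : a = toLex (Sum.inr i) := by rw [← ha]; rfl
      have hb' : b = toLex (Sum.inl j) := by rw [← hb]; rfl
      subst ha' hb'
      exact absurd hlt (by simp)
    · have ha' : a = toLex (Sum.inr i) := by rw [← ha]; rfl
      have hb' : b = toLex (Sum.inr j) := by rw [← hb]; rfl
      subst ha' hb'
      exact hadj.elim
  right_inv t := by
    rcases t with p | i
    · rfl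
    · rfl

/-- Twice the number of edges of the corona. -/
lemma two_mul_card_edge : 2 * Nat.card (OEdge (corona h)) = h * h + h := by
  rw [Nat.card_congr edgeEquiv, Nat.card_sum, Nat.card_eq_fintype_card (α := Fin h),
    Fintype.card_fin]
  have h1 : Nat.card {p : Fin h × Fin h // p.1 < p.2} =
      ∑ i : Fin h, ∑ j : Fin h, if i < j then 1 else 0 := by
    rw [Nat.card_eq_fintype_card, Fintype.card_subtype, Finset.card_filter,
      ← Finset.univ_product_univ, Finset.sum_product]
  have h2 : Nat.card {p : Fin h × Fin h // p.1 < p.2} =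
      ∑ i : Fin h, ∑ j : Fin h, if j < i then 1 else 0 := by
    rw [h1, Finset.sum_comm]
  have h3 : (∑ i : Fin h, ∑ j : Fin h, if i < j then 1 else 0) +
      (∑ i : Fin h, ∑ j : Fin h, if j < i then 1 else 0) + h = h * h := by
    have h4 : ∀ i : Fin h, (∑ j : Fin h, if i < j then 1 else 0) +
        (∑ j : Fin h, if j < i then 1 else 0) + 1 = h := by
      intro i
      have h5 : (∑ j : Fin h, if j = i then 1 else 0) = 1 := by simp
      have h6 : (∑ j : Fin h, 1) = h := by simp
      conv_rhs => rw [← h6]
      conv_lhs => rw [← h5]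
      rw [← Finset.sum_add_distrib, ← Finset.sum_add_distrib]
      apply Finset.sum_congr rfl
      intro j _
      rcases lt_trichotomy i j with hlt | heq | hlt
      · simp [hlt, hlt.ne', hlt.not_gt]
      · simp [heq]
      · simp [hlt, hlt.ne, hlt.not_gt]
    have h7 : ∑ i : Fin h, ((∑ j : Fin h, if i < j then 1 else 0) +
        (∑ j : Fin h, if j < i then 1 else 0) + 1) = ∑ i : Fin h, h :=
      Finset.sum_congr rfl fun i _ => h4 i
    rw [Finset.sum_add_distrib, Finset.sum_add_distrib] at h7
    simpa using h7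
  rw [← h1, ← h2] at h3
  linarith

end Pool.Agent.Work.MP_2f42a7_al
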