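import Pool.Agent.Work.MP_2f42a7_al.Defs

set_option autoImplicit false

/-!
# Counting conjugacy classes of graphical groups
-/

universe u v w

namespace Pool.Agent.Work.MP_2f42a7_al

variable {V : Type u} [LinearOrder V] (Γ : SimpleGraph V) (R : Type v) [CommRing R]

/-- Solutions of the commuting equations. -/
def Sol : Type (max u v) :=
  {x : (V → R) × (V → R) // ∀ a b, Γ.Adj a b → x.1 a * x.2 b = x.2 a * x.1 b}

variable {Γ R}

lemma commute_iff (g h : GraphicalGroup Γ R) :
    Commute g h ↔ ∀ a b, Γ.Adj a b → g.x a * h.x b = h.x a * g.x b := by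
  constructor
  · intro hc
    have key : ∀ a b, Γ.Adj a b → a < b → g.x a * h.x b = h.x a * g.x b := by
      intro a b hab hlt
      let e : OEdge Γ := ⟨(a, b), hlt, hab⟩
      have h1 : g.z e + h.z e + g.x a * h.x b = h.z e + g.z e + h.x a * g.x b :=
        congrArg (fun t => GraphicalGroup.z t e) hc.eq
      linear_combination h1
    intro a b hab
    rcases lt_trichotomy a b with hlt | heq | hlt
    · exact key a b hab hlt
    · exact absurd (heq ▸ hab) (Γ.loopless.irrefl _)
    · have := key b a hab.symm hlt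
      linear_combination -this
  · intro hall
    apply GraphicalGroup.ext
    · funext v; simp [add_comm]
    · funext e
      simp only [GraphicalGroup.mul_z]
      have := hall e.1.1 e.1.2 e.2.2
      linear_combination this

/-- The underlying set of a graphical group. -/
def equivProd : GraphicalGroup Γ R ≃ (V → R) × (OEdge Γ → R) where
  toFun g := (g.x, g.z)
  invFun p := ⟨p.1, p.2⟩
  left_inv _ := rfl
  right_inv _ := rfl

/-- Commuting pairs. -/
def commEquiv : {p : GraphicalGroup Γ R × GraphicalGroup Γ R // Commute p.1 p.2} ≃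
    Sol Γ R × ((OEdge Γ → R) × (OEdge Γ → R)) where
  toFun p := (⟨(p.1.1.x, p.1.2.x), (commute_iff _ _).1 p.2⟩, (p.1.1.z, p.1.2.z))
  invFun q := ⟨(⟨q.1.1.1, q.2.1⟩, ⟨q.1.1.2, q.2.2⟩), (commute_iff _ _).2 q.1.2⟩
  left_inv _ := rfl
  right_inv _ := rfl

lemma class_count [Finite V] [Finite R] :
    numConjClasses (GraphicalGroup Γ R) * Nat.card R ^ Nat.card V =
      Nat.card (Sol Γ R) * Nat.card R ^ Nat.card (OEdge Γ) := by
  have hfinE : Finite (OEdge Γ) := by unfold OEdge; infer_instance
  have hfin : Finite (GraphicalGroup Γ R) := Finite.of_equiv _ equivProd.symm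
  have h1 := card_comm_eq_card_conjClasses_mul_card (GraphicalGroup Γ R)
  rw [Nat.card_congr commEquiv, Nat.card_congr (equivProd (Γ := Γ) (R := R))] at h1
  simp only [Nat.card_prod, Nat.card_fun] at h1
  have hpos : 0 < Nat.card R ^ Nat.card (OEdge Γ) := pow_pos Nat.card_pos _
  unfold numConjClasses
  apply Nat.eq_of_mul_eq_mul_right hpos
  calc Nat.card (ConjClasses (GraphicalGroup Γ R)) * Nat.card R ^ Nat.card V *
        Nat.card R ^ Nat.card (OEdge Γ)
      = Nat.card (ConjClasses (GraphicalGroup Γ R)) *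
        (Nat.card R ^ Nat.card V * Nat.card R ^ Nat.card (OEdge Γ)) := by ring
    _ = _ := by rw [← h1]; ring

end Pool.Agent.Work.MP_2f42a7_al
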