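import Mathlib

set_option autoImplicit false

/-!
# Graphical groups and their class counting zeta functions: definitions
-/

universe u v w

namespace Pool.Agent.Work.MP_2f42a7_al

/-- The edges of a simple graph on a totally ordered vertex set, as ordered pairs `(u, v)` with
`u < v`. -/
def OEdge {V : Type u} [LinearOrder V] (Γ : SimpleGraph V) : Type u :=
  {p : V × V // p.1 < p.2 ∧ Γ.Adj p.1 p.2}

/-- The underlying set `R^V × R^E` of the graphical group `G_Γ(R)`. -/
@[ext] structure GraphicalGroup {V : Type u} [LinearOrder V] (Γ : SimpleGraph V) (R : Type v) where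
  /-- the `R^V` component -/
  x : V → R
  /-- the `R^E` component -/
  z : OEdge Γ → R

namespace GraphicalGroup

variable {V : Type u} [LinearOrder V] {Γ : SimpleGraph V} {R : Type v} [CommRing R]

/-- `(x,z)·(x',z') = (x+x', z+z'+β(x,x'))`, where `β(x,x')_e = x_u x'_v` for `e = {u,v}`,
`u < v`. -/
instance : Mul (GraphicalGroup Γ R) :=
  ⟨fun g h => ⟨fun v => g.x v + h.x v, fun e => g.z e + h.z e + g.x e.1.1 * h.x e.1.2⟩⟩

instance : One (GraphicalGroup Γ R) := ⟨⟨fun _ => 0, fun _ => 0⟩⟩

instance : Inv (GraphicalGroup Γ R) :=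
  ⟨fun g => ⟨fun v => - g.x v, fun e => - g.z e + g.x e.1.1 * g.x e.1.2⟩⟩

@[simp] lemma mul_x (g h : GraphicalGroup Γ R) (v : V) : (g * h).x v = g.x v + h.x v := rfl
@[simp] lemma mul_z (g h : GraphicalGroup Γ R) (e : OEdge Γ) :
    (g * h).z e = g.z e + h.z e + g.x e.1.1 * h.x e.1.2 := rfl
@[simp] lemma one_x (v : V) : (1 : GraphicalGroup Γ R).x v = 0 := rfl
@[simp] lemma one_z (e : OEdge Γ) : (1 : GraphicalGroup Γ R).z e = 0 := rfl
@[simp] lemma inv_x (g : GraphicalGroup Γ R) (v : V) : (g⁻¹).x v = - g.x v := rfl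
@[simp] lemma inv_z (g : GraphicalGroup Γ R) (e : OEdge Γ) :
    (g⁻¹).z e = - g.z e + g.x e.1.1 * g.x e.1.2 := rfl

instance : Group (GraphicalGroup Γ R) :=
  Group.ofLeftAxioms
    (by
      intro a b c
      apply GraphicalGroup.ext
      · funext v; simp [add_assoc]
      · funext e; simp; ring)
    (by
      intro a
      apply GraphicalGroup.ext
      · funext v; simp
      · funext e; simp)
    (by
      intro a
      apply GraphicalGroup.ext
      · funext v; simp
      · funext e; simp)

end GraphicalGroup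

open scoped NumberField

/-- The number `k(H)` of conjugacy classes of a group `H`. -/
noncomputable def numConjClasses (H : Type u) [Group H] : ℕ := Nat.card (ConjClasses H)

/-- The class counting zeta function `ζ^cc` of `G_Γ ⊗ O_K`, the series
`∑_{0 ≠ I ⊴ O_K} k(G_Γ(O_K/I)) |O_K : I|^{-s}`, converges (as a sum over the nonzero ideals) at
the complex number `s`. -/
def CcConverges {V : Type u} [LinearOrder V] (Γ : SimpleGraph V) (K : Type v) [Field K]
    [NumberField K] (s : ℂ) : Prop :=
  Summable fun I : {I : Ideal (𝓞 K) // I ≠ ⊥} =>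
    (numConjClasses (GraphicalGroup Γ (𝓞 K ⧸ I.1)) : ℂ) * (Ideal.absNorm I.1 : ℂ) ^ (-s)

/-- `α` is the abscissa of convergence of the class counting zeta function of `G_Γ ⊗ O_K`: the
infimum of the real `σ` such that the series converges for `Re(s) > σ`. -/
def IsAbscissa {V : Type u} [LinearOrder V] (Γ : SimpleGraph V) (K : Type v) [Field K]
    [NumberField K] (α : ℝ) : Prop :=
  IsGLB {σ : ℝ | ∀ s : ℂ, σ < s.re → CcConverges Γ K s} α

/-- The corona `K_h ∘ K_1`: the complete graph on `h` vertices (`inl i`) with one pendant vertex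
(`inr i`) attached to every vertex. -/
def corona (h : ℕ) : SimpleGraph (Fin h ⊕ₗ Fin h) where
  Adj a b := match ofLex a, ofLex b with
    | Sum.inl i, Sum.inl j => i ≠ j
    | Sum.inl i, Sum.inr j => i = j
    | Sum.inr i, Sum.inl j => i = j
    | Sum.inr _, Sum.inr _ => False
  symm := ⟨by
    intro a b hab
    rcases ha : ofLex a with i | i <;> rcases hb : ofLex b with j | j <;>
      simp only [ha, hb] at hab ⊢
    · exact hab.symm
    · exact hab.symm
    · exact hab.symm⟩
  loopless := ⟨by
    intro a ha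
    rcases h1 : ofLex a with i | i <;> simp [h1] at ha⟩

end Pool.Agent.Work.MP_2f42a7_al
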