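import Pool.Agent.Work.MP_2f42a7_al.ChainQuot

set_option autoImplicit false

/-!
# Summability of a multiplicative function of ideals
-/

universe u v w

open NumberField UniqueFactorizationMonoid

open scoped NumberField

namespace Pool.Agent.Work.MP_2f42a7_al

variable {K : Type u} [Field K] [NumberField K]

lemma isCoprime_primes {P Q : Ideal (𝓞 K)} (hP : P.IsPrime) (hP0 : P ≠ ⊥) (hQ : Q.IsPrime)
    (hQ0 : Q ≠ ⊥) (hPQ : P ≠ Q) : IsCoprime P Q := by
  have h1 : P.IsMaximal := hP.isMaximal hP0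
  have h2 : Q.IsMaximal := hQ.isMaximal hQ0
  rw [Ideal.isCoprime_iff_sup_eq]
  exact h1.coprime_of_ne h2 hPQ

lemma map_prod_primes (g : Ideal (𝓞 K) → ℝ) (hg1 : g 1 = 1)
    (hmul : ∀ I J, IsCoprime I J → g (I * J) = g I * g J) (T : Finset (Ideal (𝓞 K)))
    (hT : ∀ P ∈ T, P.IsPrime ∧ P ≠ ⊥) (e : Ideal (𝓞 K) → ℕ) :
    g (∏ P ∈ T, P ^ e P) = ∏ P ∈ T, g (P ^ e P) := by
  classical
  induction T using Finset.induction_on with
  | empty => simpa using hg1
  | insert Q T hQ ih =>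
    rw [Finset.prod_insert hQ, Finset.prod_insert hQ, hmul, ih]
    · exact fun P hP => hT P (Finset.mem_insert_of_mem hP)
    · apply IsCoprime.prod_right
      intro P hP
      apply IsCoprime.pow
      exact isCoprime_primes (hT Q (Finset.mem_insert_self _ _)).1
        (hT Q (Finset.mem_insert_self _ _)).2 (hT P (Finset.mem_insert_of_mem hP)).1
        (hT P (Finset.mem_insert_of_mem hP)).2 (fun h => hQ (h ▸ hP))

lemma summable_multiplicative (g : Ideal (𝓞 K) → ℝ) (hg0 : ∀ I, 0 ≤ g I) (hg1 : g 1 = 1)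
    (hmul : ∀ I J, IsCoprime I J → g (I * J) = g I * g J) (C s : ℝ) (hC : 0 ≤ C) (hs : 1 < s)
    (hP : ∀ P : Ideal (𝓞 K), P.IsPrime → P ≠ ⊥ → ∀ M : ℕ,
      ∑ k ∈ Finset.Icc 1 M, g (P ^ k) ≤ C * (Ideal.absNorm P : ℝ) ^ (-s)) :
    Summable fun I : {I : Ideal (𝓞 K) // I ≠ ⊥} => g I.1 := by
  classical
  have hZ := summable_ideals K hs
  set Z : ℝ := ∑' I : {I : Ideal (𝓞 K) // I ≠ ⊥}, (Ideal.absNorm I.1 : ℝ) ^ (-s) with hZdef
  refine summable_of_sum_le (c := Real.exp (C * Z)) (fun I => hg0 I.1) fun S => ?_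
  -- the set of primes
  let T : Finset (Ideal (𝓞 K)) := S.biUnion fun I => (normalizedFactors I.1).toFinset
  have hT : ∀ P ∈ T, P.IsPrime ∧ P ≠ ⊥ := by
    intro P hPT
    obtain ⟨I, -, hI⟩ := Finset.mem_biUnion.1 hPT
    have h1 := prime_of_normalized_factor P (Multiset.mem_toFinset.1 hI)
    exact ⟨Ideal.isPrime_of_prime h1, h1.ne_zero⟩
  -- the bound on the exponents
  let M : ℕ := ∑ I ∈ S, (normalizedFactors I.1).card
  let e : Ideal (𝓞 K) → Ideal (𝓞 K) → ℕ := fun I P => (normalizedFactors I).count P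
  have he : ∀ I ∈ S, ∀ P, e I.1 P ≤ M := by
    intro I hI P
    refine (Multiset.count_le_card _ _).trans ?_
    exact Finset.single_le_sum (f := fun I : {I : Ideal (𝓞 K) // I ≠ ⊥} =>
      (normalizedFactors I.1).card) (fun _ _ => Nat.zero_le _) hI
  have hfac : ∀ I ∈ S, I.1 = ∏ P ∈ T, P ^ e I.1 P := by
    intro I hI
    have h1 : (normalizedFactors I.1).prod = I.1 := by
      exact Ideal.prod_normalizedFactors_eq_self I.2
    conv_lhs => rw [← h1]
    apply Finset.prod_multiset_count_of_subset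
    exact Finset.subset_biUnion_of_mem (fun I : {I : Ideal (𝓞 K) // I ≠ ⊥} =>
      (normalizedFactors I.1).toFinset) hI
  have hgI : ∀ I ∈ S, g I.1 = ∏ P : {P // P ∈ T}, g (P.1 ^ e I.1 P.1) := by
    intro I hI
    rw [Finset.prod_coe_sort T (fun P => g (P ^ e I.1 P))]
    conv_lhs => rw [hfac I hI]
    exact map_prod_primes g hg1 hmul T hT (e I.1)
  -- injection into exponent vectors
  have hinj : Set.InjOn (fun I : {I : Ideal (𝓞 K) // I ≠ ⊥} =>
      (fun P : {P // P ∈ T} => e I.1 P.1)) (S : Set {I : Ideal (𝓞 K) // I ≠ ⊥}) := by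
    intro I hI J hJ hIJ
    apply Subtype.ext
    rw [hfac I hI, hfac J hJ]
    apply Finset.prod_congr rfl
    intro P hPT
    have := congrFun hIJ ⟨P, hPT⟩
    simp only at this
    rw [this]
  have hstep1 : ∑ I ∈ S, g I.1 ≤
      ∑ v ∈ Fintype.piFinset (fun _ : {P // P ∈ T} => Finset.range (M + 1)),
        ∏ P : {P // P ∈ T}, g (P.1 ^ v P) := by
    rw [Finset.sum_congr rfl hgI]
    rw [← Finset.sum_image (g := fun I : {I : Ideal (𝓞 K) // I ≠ ⊥} =>
      (fun P : {P // P ∈ T} => e I.1 P.1)) (f := fun v => ∏ P : {P // P ∈ T}, g (P.1 ^ v P)) hinj]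
    apply Finset.sum_le_sum_of_subset_of_nonneg
    · intro v hv
      obtain ⟨I, hI, rfl⟩ := Finset.mem_image.1 hv
      rw [Fintype.mem_piFinset]
      intro P
      exact Finset.mem_range.2 (Nat.lt_succ_of_le (he I hI P.1))
    · intro v _ _
      exact Finset.prod_nonneg fun _ _ => hg0 _
  have hstep2 : ∑ v ∈ Fintype.piFinset (fun _ : {P // P ∈ T} => Finset.range (M + 1)),
        ∏ P : {P // P ∈ T}, g (P.1 ^ v P) =
      ∏ P : {P // P ∈ T}, ∑ k ∈ Finset.range (M + 1), g (P.1 ^ k) := by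
    rw [Finset.prod_univ_sum]
  have hstep3 : ∏ P : {P // P ∈ T}, ∑ k ∈ Finset.range (M + 1), g (P.1 ^ k) ≤
      ∏ P : {P // P ∈ T}, Real.exp (C * (Ideal.absNorm P.1 : ℝ) ^ (-s)) := by
    apply Finset.prod_le_prod
    · intro P _
      exact Finset.sum_nonneg fun _ _ => hg0 _
    · intro P _
      rw [Finset.sum_range_eq_add_Ico _ (Nat.succ_pos M), pow_zero, hg1]
      have h1 := hP P.1 (hT P.1 P.2).1 (hT P.1 P.2).2 M
      have h2 : Finset.Ico 1 (M + 1) = Finset.Icc 1 M := by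
        ext x; simp
      rw [h2]
      have h3 := Real.add_one_le_exp (C * (Ideal.absNorm P.1 : ℝ) ^ (-s))
      linarith
  refine hstep1.trans (hstep2.le.trans (hstep3.trans ?_))
  rw [← Real.exp_sum, ← Finset.mul_sum]
  apply Real.exp_le_exp.2
  apply mul_le_mul_of_nonneg_left _ hC
  have h4 : ∑ P : {P // P ∈ T}, (Ideal.absNorm P.1 : ℝ) ^ (-s) =
      ∑ I ∈ Finset.univ.image (fun P : {P // P ∈ T} =>
        (⟨P.1, (hT P.1 P.2).2⟩ : {I : Ideal (𝓞 K) // I ≠ ⊥})),
          (Ideal.absNorm I.1 : ℝ) ^ (-s) := by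
    rw [Finset.sum_image]
    intro P _ Q _ hPQ
    exact Subtype.ext (congrArg (fun t : {I : Ideal (𝓞 K) // I ≠ ⊥} => t.1) hPQ)
  rw [h4]
  exact hZ.sum_le_tsum _ (fun _ _ => Real.rpow_nonneg (Nat.cast_nonneg _) _)

end Pool.Agent.Work.MP_2f42a7_al
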