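import Pool.Agent.Work.MP_2f42a7_al.Corona

set_option autoImplicit false

/-!
# Local upper bound
-/

universe u v w

namespace Pool.Agent.Work.MP_2f42a7_al

/-- A finite chain ring of length `k` with residue field of order `q`. -/
structure Chain (R : Type v) [CommRing R] (k q : ℕ) where
  M : ℕ → Ideal R
  anti : Antitone M
  zero : M 0 = ⊤
  top : M k = ⊥
  card : ∀ j, j ≤ k → Nat.card (M j) = q ^ (k - j)
  gen : ∀ j, j < k → ∀ x, x ∈ M j → x ∉ M (j + 1) → Ideal.span {x} = M j

variable {R : Type v} [CommRing R] [Finite R] {k q h : ℕ}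

/-- Exact valuation. -/
def Chain.Ex (C : Chain R k q) (a : ℕ) (v : R × R) : Prop :=
  (v.1 ∈ C.M a ∧ v.2 ∈ C.M a) ∧ (a < k → ¬ (v.1 ∈ C.M (a + 1) ∧ v.2 ∈ C.M (a + 1)))

lemma Chain.card_R (C : Chain R k q) : Nat.card R = q ^ k := by
  have h1 := C.card 0 (Nat.zero_le _)
  rw [C.zero] at h1
  simpa using h1

lemma Chain.q_pos (C : Chain R k q) (hk : 0 < k) : 0 < q := by
  rcases Nat.eq_zero_or_pos q with hq | hq
  · have := C.card_R
    rw [hq, zero_pow hk.ne'] at this
    have h2 : 0 < Nat.card R := Nat.card_pos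
    omega
  · exact hq

lemma Chain.pow_pos' (C : Chain R k q) (j : ℕ) (hj : j ≤ k) : 0 < q ^ j := by
  rcases Nat.eq_zero_or_pos k with hk | hk
  · have : j = 0 := by omega
    simp [this]
  · exact pow_pos (C.q_pos hk) j

lemma Chain.card_ann (C : Chain R k q) {a : ℕ} (ha : a < k) {x : R} (hx : x ∈ C.M a)
    (hx' : x ∉ C.M (a + 1)) : Nat.card {r : R // x * r = 0} = q ^ a := by
  let f : R →+ R := AddMonoidHom.mulLeft x
  have h1 : Nat.card f.ker * Nat.card f.range = Nat.card R := by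
    rw [← AddSubgroup.card_mul_index f.ker, AddSubgroup.index_ker]
  have h2 : Nat.card f.range = q ^ (k - a) := by
    rw [← C.card a ha.le, ← C.gen a ha x hx hx']
    apply Nat.card_congr
    refine Equiv.subtypeEquivRight fun y => ?_
    rw [Ideal.mem_span_singleton']
    constructor
    · rintro ⟨r, rfl⟩
      exact ⟨r, mul_comm _ _⟩
    · rintro ⟨r, rfl⟩
      exact ⟨r, mul_comm _ _⟩
  have h3 : Nat.card {r : R // x * r = 0} = Nat.card f.ker := rfl
  rw [h3]
  rw [h2, C.card_R] at h1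
  have h4 : 0 < q ^ (k - a) := C.pow_pos' _ (Nat.sub_le _ _)
  apply Nat.eq_of_mul_eq_mul_right h4
  rw [h1, ← pow_add]
  congr 1
  omega

/-- Number of vectors of `M_b²` parallel to `v`. -/
noncomputable def Chain.cnt (C : Chain R k q) (b : ℕ) (v : R × R) : ℕ :=
  Nat.card {w : R × R // (w.1 ∈ C.M b ∧ w.2 ∈ C.M b) ∧ Par v w}

lemma Chain.cnt_le_aux (C : Chain R k q) {a b : ℕ} (ha : a < k) (hb : b ≤ k) {v : R × R}
    (h1 : v.1 ∈ C.M a) (h2 : v.2 ∈ C.M a) (h3 : v.1 ∉ C.M (a + 1)) :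
    C.cnt b v ≤ q ^ (k - b) * q ^ (min (k - b) a) := by
  have h4 : v.2 ∈ Ideal.span {v.1} := by rw [C.gen a ha _ h1 h3]; exact h2
  obtain ⟨c, hc⟩ := Ideal.mem_span_singleton'.1 h4
  let g : {w : R × R // (w.1 ∈ C.M b ∧ w.2 ∈ C.M b) ∧ Par v w} →
      C.M b × {r : R // r ∈ C.M b ∧ v.1 * r = 0} := fun w =>
    (⟨w.1.1, w.2.1.1⟩, ⟨w.1.2 - c * w.1.1,
      (C.M b).sub_mem w.2.1.2 ((C.M b).mul_mem_left c w.2.1.1), by
        have h5 : v.1 * w.1.2 = v.2 * w.1.1 := w.2.2
        rw [← hc] at h5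
        linear_combination h5⟩)
  have hg : Function.Injective g := by
    intro w w' hww
    have e1 : w.1.1 = w'.1.1 := congrArg (fun t => (t.1 : R)) hww
    have e2 : w.1.2 - c * w.1.1 = w'.1.2 - c * w'.1.1 := congrArg (fun t => (t.2 : R)) hww
    rw [e1] at e2
    apply Subtype.ext
    apply Prod.ext e1
    linear_combination e2
  have h6 : C.cnt b v ≤ Nat.card (C.M b × {r : R // r ∈ C.M b ∧ v.1 * r = 0}) :=
    Nat.card_le_card_of_injective g hg
  refine h6.trans ?_
  rw [Nat.card_prod, C.card b hb]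
  apply Nat.mul_le_mul_left
  rcases le_total (k - b) a with h7 | h7
  · rw [min_eq_left h7, ← C.card b hb]
    exact Nat.card_le_card_of_injective
      (fun r : {r : R // r ∈ C.M b ∧ v.1 * r = 0} => (⟨r.1, r.2.1⟩ : C.M b))
      (fun r r' hrr => Subtype.ext (congrArg (fun t : C.M b => (t : R)) hrr))
  · rw [min_eq_right h7, ← C.card_ann ha h1 h3]
    exact Nat.card_le_card_of_injective
      (fun r : {r : R // r ∈ C.M b ∧ v.1 * r = 0} => (⟨r.1, r.2.2⟩ : {r : R // v.1 * r = 0}))
      (fun r r' hrr => Subtype.ext (congrArg (fun t : {r : R // v.1 * r = 0} => (t : R)) hrr))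

lemma Chain.cnt_swap (C : Chain R k q) (b : ℕ) (v : R × R) : C.cnt b v.swap = C.cnt b v := by
  unfold Chain.cnt
  apply Nat.card_congr
  refine (Equiv.prodComm R R).subtypeEquiv fun w => ?_
  simp only [Equiv.prodComm_apply, Prod.fst_swap, Prod.snd_swap, Par]
  constructor
  · rintro ⟨⟨h1, h2⟩, h3⟩
    exact ⟨⟨h2, h1⟩, h3.symm⟩
  · rintro ⟨⟨h1, h2⟩, h3⟩
    exact ⟨⟨h2, h1⟩, h3.symm⟩

lemma Chain.cnt_le (C : Chain R k q) {a b : ℕ} (ha : a ≤ k) (hab : a ≤ b) (hb : b ≤ k)
    {v : R × R} (hv : C.Ex a v) : C.cnt b v ≤ q ^ (k - b) * q ^ (min (k - b) a) := by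
  rcases ha.lt_or_eq with hlt | rfl
  · by_cases h1 : v.1 ∈ C.M (a + 1)
    · have h2 : v.2 ∉ C.M (a + 1) := fun h2 => hv.2 hlt ⟨h1, h2⟩
      rw [← C.cnt_swap]
      exact C.cnt_le_aux hlt hb hv.1.2 hv.1.1 h2
    · exact C.cnt_le_aux hlt hb hv.1.1 hv.1.2 h1
  · have hb' : b = a := le_antisymm hb hab
    subst hb'
    have : Subsingleton {w : R × R // (w.1 ∈ C.M b ∧ w.2 ∈ C.M b) ∧ Par v w} := by
      constructor
      rintro ⟨⟨w1, w2⟩, ⟨h1, h2⟩, -⟩ ⟨⟨w1', w2'⟩, ⟨h1', h2'⟩, -⟩
      rw [C.top, Ideal.mem_bot] at h1 h2 h1' h2'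
      apply Subtype.ext
      exact Prod.ext (h1.trans h1'.symm) (h2.trans h2'.symm)
    unfold Chain.cnt
    simp only [Nat.sub_self, pow_zero, Nat.zero_min, mul_one]
    exact Finite.card_le_one_iff_subsingleton.2 this

lemma Chain.L_le (C : Chain R k q) {a : ℕ} (ha : a ≤ k) {v : R × R} (hv : C.Ex a v) :
    L v ≤ q ^ (k + a) := by
  have h0 : L v = C.cnt 0 v := by
    unfold L Chain.cnt
    apply Nat.card_congr
    refine Equiv.subtypeEquivRight fun w => ?_
    simp [C.zero]
  rcases ha.lt_or_eq with hlt | rfl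
  · rw [h0]
    have h1 : C.cnt 0 v ≤ q ^ (k - 0) * q ^ (min (k - 0) a) := by
      by_cases h1 : v.1 ∈ C.M (a + 1)
      · have h2 : v.2 ∉ C.M (a + 1) := fun h2 => hv.2 hlt ⟨h1, h2⟩
        rw [← C.cnt_swap]
        exact C.cnt_le_aux hlt (Nat.zero_le _) hv.1.2 hv.1.1 h2
      · exact C.cnt_le_aux hlt (Nat.zero_le _) hv.1.1 hv.1.2 h1
    rw [Nat.sub_zero, min_eq_right ha] at h1
    rw [pow_add]
    exact h1
  · rw [pow_add, ← C.card_R, ← Nat.card_prod]
    exact Nat.card_le_card_of_injective (fun w : {q : R × R // Par v q} => w.1)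
      Subtype.val_injective

lemma Chain.exists_ex (C : Chain R k q) {a : ℕ} (ha : a ≤ k) {v : R × R}
    (hv : v.1 ∈ C.M a ∧ v.2 ∈ C.M a) : ∃ b, a ≤ b ∧ b ≤ k ∧ C.Ex b v := by
  classical
  let P : ℕ → Prop := fun b => v.1 ∈ C.M b ∧ v.2 ∈ C.M b
  have hspec : P (Nat.findGreatest P k) := Nat.findGreatest_spec (P := P) ha hv
  refine ⟨Nat.findGreatest P k, Nat.le_findGreatest ha hv, Nat.findGreatest_le k,
    hspec, fun hlt hcon => ?_⟩
  exact Nat.findGreatest_is_greatest (P := P) (Nat.lt_succ_self _) hlt hcon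

open Classical in
lemma Chain.sum_L_le [Fintype R] (C : Chain R k q) {a : ℕ} (ha : a ≤ k) {v : R × R}
    (hv : C.Ex a v) :
    (∑ w : R × R, if ((w.1 ∈ C.M a ∧ w.2 ∈ C.M a) ∧ Par v w) then L w else 0) ≤
      (k + 1) * q ^ (2 * k + min (k - a) a) := by
  have h1 : ∀ w : R × R, (if ((w.1 ∈ C.M a ∧ w.2 ∈ C.M a) ∧ Par v w) then L w else 0) ≤
      ∑ b ∈ Finset.Icc a k, if ((w.1 ∈ C.M b ∧ w.2 ∈ C.M b) ∧ Par v w) then q ^ (k + b) else 0 := by
    intro w
    split_ifs with hw
    · obtain ⟨b, hab, hbk, hb⟩ := C.exists_ex ha hw.1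
      have hmem : b ∈ Finset.Icc a k := Finset.mem_Icc.2 ⟨hab, hbk⟩
      calc L w ≤ q ^ (k + b) := C.L_le hbk hb
        _ = if ((w.1 ∈ C.M b ∧ w.2 ∈ C.M b) ∧ Par v w) then q ^ (k + b) else 0 := by
            rw [if_pos ⟨hb.1, hw.2⟩]
        _ ≤ _ := Finset.single_le_sum (f := fun b =>
            if ((w.1 ∈ C.M b ∧ w.2 ∈ C.M b) ∧ Par v w) then q ^ (k + b) else 0)
            (fun _ _ => Nat.zero_le _) hmem
    · exact Nat.zero_le _
  refine (Finset.sum_le_sum fun w _ => h1 w).trans ?_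
  rw [Finset.sum_comm]
  have h2 : ∀ b ∈ Finset.Icc a k,
      (∑ w : R × R, if ((w.1 ∈ C.M b ∧ w.2 ∈ C.M b) ∧ Par v w) then q ^ (k + b) else 0) ≤
        q ^ (2 * k + min (k - a) a) := by
    intro b hb
    obtain ⟨hab, hbk⟩ := Finset.mem_Icc.1 hb
    rw [← Finset.sum_filter, Finset.sum_const, smul_eq_mul]
    have h3 : (Finset.univ.filter fun w : R × R =>
        ((w.1 ∈ C.M b ∧ w.2 ∈ C.M b) ∧ Par v w)).card = C.cnt b v := by
      unfold Chain.cnt
      rw [Nat.card_eq_fintype_card, Fintype.card_subtype]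
    rw [h3]
    calc C.cnt b v * q ^ (k + b) ≤ (q ^ (k - b) * q ^ (min (k - b) a)) * q ^ (k + b) :=
          Nat.mul_le_mul_right _ (C.cnt_le ha hab hbk hv)
      _ = q ^ (2 * k + min (k - b) a) := by
          rw [← pow_add, ← pow_add]
          congr 1
          omega
      _ ≤ q ^ (2 * k + min (k - a) a) := by
          rcases Nat.eq_zero_or_pos k with hk | hk
          · subst hk
            simp
          · apply Nat.pow_le_pow_right (C.q_pos hk)
            omega
  refine (Finset.sum_le_sum h2).trans ?_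
  rw [Finset.sum_const, smul_eq_mul]
  apply Nat.mul_le_mul_right
  rw [Nat.card_Icc]
  omega

open Classical in
/-- The main local estimate. -/
lemma Chain.card_sol_le (C : Chain R k q) (hk : 0 < k) (hh : 0 < h) (E : ℕ)
    (hE : ∀ a ≤ k, 2 * (k - a) + (k + a) + (h - 1) * (2 * k + min (k - a) a) ≤ E) :
    Nat.card (Sol (corona h) R) ≤ h * (k + 1) ^ h * q ^ E := by
  have : Fintype R := Fintype.ofFinite R
  rw [card_sol]
  -- the majorant
  let F : Fin h → ℕ → R × R → Fin h → R × R → ℕ := fun i0 a v i w =>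
    if i = i0 then (if w = v then L w else 0)
    else (if ((w.1 ∈ C.M a ∧ w.2 ∈ C.M a) ∧ Par v w) then L w else 0)
  have h1 : ∀ p : Fin h → R × R,
      (if (∀ i j, i ≠ j → Par (p i) (p j)) then ∏ i, L (p i) else 0) ≤
      ∑ i0 : Fin h, ∑ a ∈ Finset.range (k + 1), ∑ v : R × R,
        if C.Ex a v then ∏ i, F i0 a v i (p i) else 0 := by
    intro p
    split_ifs with hp
    · -- choose the index of minimal valuation
      have hex : ∀ i, ∃ b, 0 ≤ b ∧ b ≤ k ∧ C.Ex b (p i) := fun i =>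
        C.exists_ex (Nat.zero_le _) (by simp [C.zero])
      choose val hv0 hvk hvex using hex
      have : Nonempty (Fin h) := ⟨⟨0, hh⟩⟩
      obtain ⟨i0, hi0⟩ := Finite.exists_min val
      have hprod : ∏ i, L (p i) = ∏ i, F i0 (val i0) (p i0) i (p i) := by
        apply Finset.prod_congr rfl
        intro i _
        by_cases hi : i = i0
        · subst hi
          simp [F]
        · have hmem : (p i).1 ∈ C.M (val i0) ∧ (p i).2 ∈ C.M (val i0) :=
            ⟨C.anti (hi0 i) (hvex i).1.1, C.anti (hi0 i) (hvex i).1.2⟩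
          simp only [F, if_neg hi]
          rw [if_pos ⟨hmem, hp i0 i (Ne.symm hi)⟩]
      calc ∏ i, L (p i) = if C.Ex (val i0) (p i0) then ∏ i, F i0 (val i0) (p i0) i (p i) else 0 := by
            rw [if_pos (hvex i0), hprod]
        _ ≤ ∑ v : R × R, if C.Ex (val i0) v then ∏ i, F i0 (val i0) v i (p i) else 0 :=
            Finset.single_le_sum (f := fun v =>
              if C.Ex (val i0) v then ∏ i, F i0 (val i0) v i (p i) else 0)
              (fun _ _ => Nat.zero_le _) (Finset.mem_univ _)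
        _ ≤ ∑ a ∈ Finset.range (k + 1), ∑ v : R × R,
              if C.Ex a v then ∏ i, F i0 a v i (p i) else 0 :=
            Finset.single_le_sum (f := fun a => ∑ v : R × R,
              if C.Ex a v then ∏ i, F i0 a v i (p i) else 0)
              (fun _ _ => Nat.zero_le _) (Finset.mem_range.2 (Nat.lt_succ_of_le (hvk i0)))
        _ ≤ _ := Finset.single_le_sum (f := fun i0 => ∑ a ∈ Finset.range (k + 1), ∑ v : R × R,
              if C.Ex a v then ∏ i, F i0 a v i (p i) else 0)
              (fun _ _ => Nat.zero_le _) (Finset.mem_univ i0)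
    · exact Nat.zero_le _
  refine (Finset.sum_le_sum fun p _ => h1 p).trans ?_
  rw [Finset.sum_comm]
  have h2 : ∀ i0 : Fin h, (∑ p : Fin h → R × R, ∑ a ∈ Finset.range (k + 1), ∑ v : R × R,
        if C.Ex a v then ∏ i, F i0 a v i (p i) else 0) ≤ (k + 1) ^ h * q ^ E := by
    intro i0
    rw [Finset.sum_comm]
    have h3 : ∀ a ∈ Finset.range (k + 1), (∑ p : Fin h → R × R, ∑ v : R × R,
        if C.Ex a v then ∏ i, F i0 a v i (p i) else 0) ≤ (k + 1) ^ (h - 1) * q ^ E := by
      intro a ha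
      have ha' : a ≤ k := Nat.lt_succ_iff.1 (Finset.mem_range.1 ha)
      rw [Finset.sum_comm]
      have h4 : ∀ v : R × R, (∑ p : Fin h → R × R,
          if C.Ex a v then ∏ i, F i0 a v i (p i) else 0) ≤
          if (v.1 ∈ C.M a ∧ v.2 ∈ C.M a) then
            q ^ (k + a) * ((k + 1) * q ^ (2 * k + min (k - a) a)) ^ (h - 1) else 0 := by
        intro v
        by_cases hv : C.Ex a v
        · rw [if_pos hv.1]
          simp only [if_pos hv]
          have h5 : (∑ p : Fin h → R × R, ∏ i, F i0 a v i (p i)) = ∏ i, ∑ w, F i0 a v i w := by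
            rw [Finset.prod_univ_sum, Fintype.piFinset_univ]
          rw [h5, ← Finset.mul_prod_erase Finset.univ _ (Finset.mem_univ i0)]
          apply Nat.mul_le_mul
          · have : (∑ w, F i0 a v i0 w) = L v := by simp [F]
            rw [this]
            exact C.L_le ha' hv
          · have h6 : ∀ i ∈ Finset.univ.erase i0, (∑ w, F i0 a v i w) ≤
                (k + 1) * q ^ (2 * k + min (k - a) a) := by
              intro i hi
              have hne : i ≠ i0 := Finset.ne_of_mem_erase hi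
              simp only [F, if_neg hne]
              exact C.sum_L_le ha' hv
            refine (Finset.prod_le_prod' h6).trans ?_
            rw [Finset.prod_const, Finset.card_erase_of_mem (Finset.mem_univ _),
              Finset.card_univ, Fintype.card_fin]
        · simp [hv]
      refine (Finset.sum_le_sum fun v _ => h4 v).trans ?_
      rw [← Finset.sum_filter, Finset.sum_const, smul_eq_mul]
      have h7 : (Finset.univ.filter fun v : R × R => v.1 ∈ C.M a ∧ v.2 ∈ C.M a).card =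
          q ^ (k - a) * q ^ (k - a) := by
        rw [← C.card a ha', ← Nat.card_prod, ← Fintype.card_subtype, ← Nat.card_eq_fintype_card]
        exact Nat.card_congr
          { toFun := fun v => (⟨v.1.1, v.2.1⟩, ⟨v.1.2, v.2.2⟩)
            invFun := fun v => ⟨(v.1.1, v.2.1), ⟨v.1.2, v.2.2⟩⟩
            left_inv := fun _ => rfl
            right_inv := fun _ => rfl }
      rw [h7]
      calc q ^ (k - a) * q ^ (k - a) *
            (q ^ (k + a) * ((k + 1) * q ^ (2 * k + min (k - a) a)) ^ (h - 1))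
          = (k + 1) ^ (h - 1) *
            q ^ (2 * (k - a) + (k + a) + (h - 1) * (2 * k + min (k - a) a)) := by
            rw [mul_pow, ← pow_mul]
            rw [show 2 * (k - a) + (k + a) + (h - 1) * (2 * k + min (k - a) a) =
              (k - a) + (k - a) + (k + a) + (2 * k + min (k - a) a) * (h - 1) by ring]
            rw [pow_add, pow_add, pow_add]
            ring
        _ ≤ _ := by
            apply Nat.mul_le_mul_left
            exact Nat.pow_le_pow_right (C.q_pos hk) (hE a ha')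
    refine (Finset.sum_le_sum h3).trans ?_
    rw [Finset.sum_const, Finset.card_range, smul_eq_mul, ← mul_assoc, ← pow_succ',
      Nat.sub_add_cancel hh]
  refine (Finset.sum_le_sum fun i0 _ => h2 i0).trans ?_
  rw [Finset.sum_const, Finset.card_univ, Fintype.card_fin, smul_eq_mul, mul_assoc]

end Pool.Agent.Work.MP_2f42a7_al
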