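import Pool.Agent.Work.MP_2f42a7_al.Global

set_option autoImplicit false

/-!
# Lower bound for the number of solutions modulo squares of ideals
-/

universe u v w

open NumberField

open scoped NumberField

namespace Pool.Agent.Work.MP_2f42a7_al

section general

variable {R : Type v} [CommRing R] [Finite R] {h : ℕ}

/-- For an ideal `𝔞`, at least `|𝔞|` vectors of `𝔞²` are parallel to a given vector. -/
lemma card_par_ideal (𝔞 : Ideal R) (q : R × R) :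
    Nat.card 𝔞 ≤ Nat.card {p : R × R // (p.1 ∈ 𝔞 ∧ p.2 ∈ 𝔞) ∧ Par p q} := by
  let φ : (𝔞 × 𝔞) →+ 𝔞 :=
    { toFun := fun p => ⟨p.1.1 * q.2 - p.2.1 * q.1,
        𝔞.sub_mem (𝔞.mul_mem_right _ p.1.2) (𝔞.mul_mem_right _ p.2.2)⟩
      map_zero' := by ext; simp
      map_add' := by intro a b; ext; simp; ring }
  have h1 : Nat.card φ.ker * Nat.card φ.range = Nat.card (𝔞 × 𝔞) := by
    rw [← AddSubgroup.card_mul_index φ.ker, AddSubgroup.index_ker]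
  have h2 : Nat.card φ.range ≤ Nat.card 𝔞 :=
    Nat.card_le_card_of_injective (fun x => x.1) Subtype.val_injective
  have h3 : Nat.card φ.ker = Nat.card {p : R × R // (p.1 ∈ 𝔞 ∧ p.2 ∈ 𝔞) ∧ Par p q} := by
    apply Nat.card_congr
    exact
      { toFun := fun p => ⟨(p.1.1.1, p.1.2.1), ⟨p.1.1.2, p.1.2.2⟩, by
          have := congrArg (fun t : 𝔞 => (t : R)) p.2
          exact sub_eq_zero.1 this⟩
        invFun := fun p => ⟨(⟨p.1.1, p.2.1.1⟩, ⟨p.1.2, p.2.1.2⟩), by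
          apply Subtype.ext
          exact sub_eq_zero.2 p.2.2⟩
        left_inv := fun _ => rfl
        right_inv := fun _ => rfl }
  rw [← h3]
  rw [Nat.card_prod] at h1
  have hpos : 0 < Nat.card 𝔞 := Nat.card_pos
  by_contra hlt
  push Not at hlt
  have h4 : Nat.card φ.ker * Nat.card φ.range ≤ Nat.card φ.ker * Nat.card 𝔞 :=
    Nat.mul_le_mul_left _ h2
  have h5 : Nat.card φ.ker * Nat.card 𝔞 < Nat.card 𝔞 * Nat.card 𝔞 :=
    Nat.mul_lt_mul_of_pos_right hlt hpos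
  omega

lemma card_pairs (𝔞 : Ideal R) :
    Nat.card R ^ 2 * Nat.card 𝔞 ≤
      Nat.card {t : (R × R) × (R × R) // (t.1.1 ∈ 𝔞 ∧ t.1.2 ∈ 𝔞) ∧ Par t.1 t.2} := by
  have : Fintype R := Fintype.ofFinite R
  have e : {t : (R × R) × (R × R) // (t.1.1 ∈ 𝔞 ∧ t.1.2 ∈ 𝔞) ∧ Par t.1 t.2} ≃
      Σ q : R × R, {p : R × R // (p.1 ∈ 𝔞 ∧ p.2 ∈ 𝔞) ∧ Par p q} :=
    { toFun := fun t => ⟨t.1.2, ⟨t.1.1, t.2⟩⟩
      invFun := fun s => ⟨(s.2.1, s.1), s.2.2⟩
      left_inv := fun _ => rfl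
      right_inv := fun _ => rfl }
  rw [Nat.card_congr e, Nat.card_sigma]
  calc Nat.card R ^ 2 * Nat.card 𝔞 = ∑ _q : R × R, Nat.card 𝔞 := by
        rw [Finset.sum_const, Finset.card_univ, smul_eq_mul, ← Nat.card_eq_fintype_card,
          Nat.card_prod, sq]
    _ ≤ _ := Finset.sum_le_sum fun q _ => card_par_ideal 𝔞 q

lemma card_sol_ge (𝔞 : Ideal R) (h𝔞 : ∀ x ∈ 𝔞, ∀ y ∈ 𝔞, x * y = 0) :
    (Nat.card R ^ 2 * Nat.card 𝔞) ^ h ≤ Nat.card (Sol (corona h) R) := by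
  rw [Nat.card_congr solEquiv]
  have h1 : (Nat.card R ^ 2 * Nat.card 𝔞) ^ h ≤ Nat.card (Fin h →
      {t : (R × R) × (R × R) // (t.1.1 ∈ 𝔞 ∧ t.1.2 ∈ 𝔞) ∧ Par t.1 t.2}) := by
    rw [Nat.card_fun, Nat.card_eq_fintype_card (α := Fin h), Fintype.card_fin]
    exact Nat.pow_le_pow_left (card_pairs 𝔞) h
  refine h1.trans ?_
  apply Nat.card_le_card_of_injective (fun f => ⟨⟨fun i => (f i).1.1, fun i j _ => by
    unfold Par
    rw [h𝔞 _ (f i).2.1.1 _ (f j).2.1.2, h𝔞 _ (f i).2.1.2 _ (f j).2.1.1]⟩,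
    fun i => ⟨(f i).1.2, (f i).2.2⟩⟩)
  intro f g hfg
  have h2 := (Sigma.mk.inj_iff.1 hfg).1
  have h3 : (fun i => (f i).1.1) = (fun i => (g i).1.1) := congrArg Subtype.val h2
  have h4 : ∀ i, (f i).1.2 = (g i).1.2 := by
    intro i
    have := congrArg (fun t : (Σ p : {p : Fin h → R × R // ∀ i j, i ≠ j → Par (p i) (p j)},
      ∀ i, {q : R × R // Par (p.1 i) q}) => (t.2 i).1) hfg
    exact this
  funext i
  apply Subtype.ext
  exact Prod.ext (congrFun h3 i) (h4 i)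

end general

variable {K : Type u} [Field K] [NumberField K] {h : ℕ}

lemma card_sol_sq (I : Ideal (𝓞 K)) (hI : I ≠ ⊥) :
    Ideal.absNorm I ^ (5 * h) ≤ Nat.card (Sol (corona h) (𝓞 K ⧸ I ^ 2)) := by
  have hI2 : I ^ 2 ≠ ⊥ := pow_ne_zero 2 hI
  have hfin : Finite (𝓞 K ⧸ I ^ 2) := finite_quot _ hI2
  let 𝔞 : Ideal (𝓞 K ⧸ I ^ 2) := I.map (Ideal.Quotient.mk (I ^ 2))
  have h1 : ∀ x ∈ 𝔞, ∀ y ∈ 𝔞, x * y = 0 := by
    intro x hx y hy
    have h2 : x * y ∈ 𝔞 * 𝔞 := Ideal.mul_mem_mul hx hy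
    rw [← Ideal.map_mul, ← sq, Ideal.map_quotient_self] at h2
    exact h2
  have h3 : Nat.card (𝓞 K ⧸ I ^ 2) = Ideal.absNorm I ^ 2 := by rw [card_quot, map_pow]
  have h4 : Nat.card 𝔞 = Ideal.absNorm I := by
    have h5 := Submodule.card_eq_card_quotient_mul_card 𝔞
    have h6 : Nat.card ((𝓞 K ⧸ I ^ 2) ⧸ 𝔞) = Ideal.absNorm I := by
      rw [Nat.card_congr (DoubleQuot.quotQuotEquivQuotOfLE (Ideal.pow_le_self two_ne_zero)).toEquiv,
        card_quot]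
    rw [h6, h3, sq] at h5
    have hpos : 0 < Ideal.absNorm I := Nat.pos_of_ne_zero
      (fun h => hI (Ideal.absNorm_eq_zero_iff.1 h))
    apply Nat.eq_of_mul_eq_mul_left hpos
    first
      | exact h5.symm
      | (rw [mul_comm]; exact h5.symm)
  have h7 := card_sol_ge (h := h) 𝔞 h1
  rw [h3, h4, ← pow_mul, ← pow_succ, ← pow_mul] at h7
  exact h7

end Pool.Agent.Work.MP_2f42a7_al
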