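import Pool.Agent.Work.MP_2f42a7_al.Lower

set_option autoImplicit false

/-!
# Upper bound
-/

universe u v w

open NumberField

open scoped NumberField

namespace Pool.Agent.Work.MP_2f42a7_al

section mult

variable {V : Type u} [LinearOrder V] {Γ : SimpleGraph V}

/-- Solutions over isomorphic rings. -/
def solRingEquiv {R : Type v} {S : Type w} [CommRing R] [CommRing S] (e : R ≃+* S) :
    Sol Γ R ≃ Sol Γ S where
  toFun x := ⟨(fun a => e (x.1.1 a), fun a => e (x.1.2 a)), fun a b hab => by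
    change e (x.1.1 a) * e (x.1.2 b) = e (x.1.2 a) * e (x.1.1 b)
    rw [← map_mul, ← map_mul, x.2 a b hab]⟩
  invFun x := ⟨(fun a => e.symm (x.1.1 a), fun a => e.symm (x.1.2 a)), fun a b hab => by
    change e.symm (x.1.1 a) * e.symm (x.1.2 b) = e.symm (x.1.2 a) * e.symm (x.1.1 b)
    rw [← map_mul, ← map_mul, x.2 a b hab]⟩
  left_inv x := by
    apply Subtype.ext
    apply Prod.ext <;> funext a <;> simp
  right_inv x := by
    apply Subtype.ext
    apply Prod.ext <;> funext a <;> simp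

/-- Solutions over a product. -/
def solProdEquiv {R : Type v} {S : Type w} [CommRing R] [CommRing S] :
    Sol Γ (R × S) ≃ Sol Γ R × Sol Γ S where
  toFun x := (⟨(fun a => (x.1.1 a).1, fun a => (x.1.2 a).1), fun a b hab =>
      congrArg Prod.fst (x.2 a b hab)⟩,
    ⟨(fun a => (x.1.1 a).2, fun a => (x.1.2 a).2), fun a b hab =>
      congrArg Prod.snd (x.2 a b hab)⟩)
  invFun y := ⟨(fun a => (y.1.1.1 a, y.2.1.1 a), fun a => (y.1.1.2 a, y.2.1.2 a)),
    fun a b hab => Prod.ext (y.1.2 a b hab) (y.2.2 a b hab)⟩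
  left_inv _ := rfl
  right_inv _ := rfl

lemma card_sol_mul {K : Type u} [Field K] [NumberField K] {V : Type v} [LinearOrder V]
    {Γ : SimpleGraph V} (I J : Ideal (𝓞 K)) (hIJ : IsCoprime I J) :
    Nat.card (Sol Γ (𝓞 K ⧸ I * J)) = Nat.card (Sol Γ (𝓞 K ⧸ I)) * Nat.card (Sol Γ (𝓞 K ⧸ J)) := by
  rw [Nat.card_congr (solRingEquiv (Ideal.quotientMulEquivQuotientProd I J hIJ)),
    Nat.card_congr solProdEquiv, Nat.card_prod]

lemma card_sol_one {K : Type u} [Field K] [NumberField K] {V : Type v} [LinearOrder V]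
    {Γ : SimpleGraph V} : Nat.card (Sol Γ (𝓞 K ⧸ (1 : Ideal (𝓞 K)))) = 1 := by
  have hsub : Subsingleton (𝓞 K ⧸ (1 : Ideal (𝓞 K))) := by
    rw [Ideal.one_eq_top]
    infer_instance
  rw [Nat.card_eq_one_iff_unique]
  refine ⟨⟨fun x y => Subtype.ext (Subsingleton.elim _ _)⟩,
    ⟨⟨(fun _ => 0, fun _ => 0), fun _ _ _ => Subsingleton.elim _ _⟩⟩⟩

end mult

lemma exponent_bound {h k a : ℕ} (hh : 1 < h) (ha : a ≤ k) :
    2 * (2 * (k - a) + (k + a) + (h - 1) * (2 * k + min (k - a) a)) ≤ 5 * h * k := by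
  obtain ⟨h', rfl⟩ : ∃ h', h = h' + 2 := ⟨h - 2, by omega⟩
  obtain ⟨b, rfl⟩ : ∃ b, k = a + b := ⟨k - a, by omega⟩
  have h1 : a + b - a = b := by omega
  rw [h1]
  have h2 : h' + 2 - 1 = h' + 1 := by omega
  rw [h2]
  rcases le_total b a with hba | hba
  · rw [min_eq_left hba]
    nlinarith [Nat.zero_le (h' * (a - b)), Nat.mul_le_mul_left h' hba]
  · rw [min_eq_right hba]
    nlinarith [Nat.zero_le (h' * (b - a)), Nat.mul_le_mul_left h' hba]

/-- The exponent in the local bound. -/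
def expo (h k : ℕ) : ℕ := if k = 1 then 2 * h + 1 else 5 * h * k / 2

lemma le_expo {h k a : ℕ} (hh : 1 < h) (ha : a ≤ k) :
    2 * (k - a) + (k + a) + (h - 1) * (2 * k + min (k - a) a) ≤ expo h k := by
  unfold expo
  split_ifs with hk
  · subst hk
    obtain ⟨h', rfl⟩ : ∃ h', h = h' + 2 := ⟨h - 2, by omega⟩
    have h2 : h' + 2 - 1 = h' + 1 := by omega
    rw [h2]
    interval_cases a
    · simp; ring_nf; rfl
    · simp; ring_nf; omega
  · rw [Nat.le_div_iff_mul_le two_pos, mul_comm]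
    exact exponent_bound hh ha

variable {K : Type u} [Field K] [NumberField K] {h : ℕ}

lemma card_sol_pow (hh : 1 < h) (P : Ideal (𝓞 K)) (hP : P.IsPrime) (hP0 : P ≠ ⊥) {k : ℕ}
    (hk : 0 < k) :
    Nat.card (Sol (corona h) (𝓞 K ⧸ P ^ k)) ≤ h * (k + 1) ^ h * Ideal.absNorm P ^ expo h k := by
  have hPk : P ^ k ≠ ⊥ := pow_ne_zero k hP0
  have hfin : Finite (𝓞 K ⧸ P ^ k) := finite_quot _ hPk
  exact (chainQuot P hP hP0 k).card_sol_le hk (by omega) _ fun a ha => le_expo hh ha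

lemma two_le_absNorm (P : Ideal (𝓞 K)) (hP : P.IsPrime) (hP0 : P ≠ ⊥) :
    2 ≤ Ideal.absNorm P := by
  have h0 : Ideal.absNorm P ≠ 0 := fun h => hP0 (Ideal.absNorm_eq_zero_iff.1 h)
  have h1 : Ideal.absNorm P ≠ 1 := fun h => hP.ne_top (Ideal.absNorm_eq_one_iff.1 h)
  omega

/-- The weighted count. -/
noncomputable def gfun (h : ℕ) (β : ℝ) (I : Ideal (𝓞 K)) : ℝ :=
  (Nat.card (Sol (corona h) (𝓞 K ⧸ I)) : ℝ) * (Ideal.absNorm I : ℝ) ^ β

/-- The series of majorants. -/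
noncomputable def cser (h : ℕ) (k : ℕ) : ℝ := 2 * h * (k + 1 : ℝ) ^ h * ((2 : ℝ) ^ (-(1 / 2 : ℝ))) ^ k

lemma cser_nonneg (h k : ℕ) : 0 ≤ cser h k := by
  unfold cser; positivity

lemma cser_summable (h : ℕ) : Summable (cser h) := by
  unfold cser
  have hr : ‖(2 : ℝ) ^ (-(1 / 2 : ℝ))‖ < 1 := by
    rw [Real.norm_of_nonneg (by positivity)]
    exact Real.rpow_lt_one_of_one_lt_of_neg (by norm_num) (by norm_num)
  have h1 := summable_pow_mul_geometric_of_norm_lt_one h hr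
  have h2 := (summable_nat_add_iff 1).2 h1
  have h3 : (fun k : ℕ => 2 * (h : ℝ) * (k + 1 : ℝ) ^ h * ((2 : ℝ) ^ (-(1 / 2 : ℝ))) ^ k) =
      fun k : ℕ => (2 * (h : ℝ) * ((2 : ℝ) ^ (-(1 / 2 : ℝ)))⁻¹) *
        (((k + 1 : ℕ) : ℝ) ^ h * ((2 : ℝ) ^ (-(1 / 2 : ℝ))) ^ (k + 1)) := by
    funext k
    have hne : ((2 : ℝ) ^ (-(1 / 2 : ℝ))) ≠ 0 := by positivity
    push_cast
    rw [pow_succ ((2 : ℝ) ^ (-(1 / 2 : ℝ))) k]
    field_simp
  rw [h3]
  exact h2.mul_left _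

/-- local estimate -/
lemma gfun_pow_le (hh : 3 ≤ h) {δ : ℝ} (hδ : 0 < δ) (P : Ideal (𝓞 K)) (hP : P.IsPrime)
    (hP0 : P ≠ ⊥) {k : ℕ} (hk : 0 < k) :
    gfun h ((h * h + h) / 2 - 2 * h - ((h + 1) ^ 2 / 2 + δ)) (P ^ k) ≤
      cser h k * (Ideal.absNorm P : ℝ) ^ (-(1 + δ)) := by
  unfold gfun
  set q : ℝ := (Ideal.absNorm P : ℝ) with hq
  have hq2 : 2 ≤ q := by rw [hq]; exact_mod_cast two_le_absNorm P hP hP0
  have hq0 : 0 < q := by linarith
  have hq1 : 1 ≤ q := by linarith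
  set β : ℝ := ((h : ℝ) * h + h) / 2 - 2 * h - ((h + 1) ^ 2 / 2 + δ) with hβ
  have h1 : (Nat.card (Sol (corona h) (𝓞 K ⧸ P ^ k)) : ℝ) ≤
      h * (k + 1 : ℝ) ^ h * q ^ (expo h k : ℝ) := by
    have := card_sol_pow (K := K) (by omega : 1 < h) P hP hP0 hk
    rw [Real.rpow_natCast, hq]
    exact_mod_cast this
  have h2 : ((Ideal.absNorm (P ^ k) : ℕ) : ℝ) ^ β = q ^ ((k : ℝ) * β) := by
    rw [map_pow, Nat.cast_pow, ← hq, ← Real.rpow_natCast, ← Real.rpow_mul hq0.le]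
  rw [h2]
  have hhR : (3 : ℝ) ≤ h := by exact_mod_cast hh
  have hkR : (1 : ℝ) ≤ k := by exact_mod_cast hk
  -- the exponent estimate
  set t : ℝ := max ((k : ℝ) - 2) 0 with ht
  have ht0 : 0 ≤ t := le_max_right _ _
  have ht1 : (k : ℝ) - 2 ≤ t := le_max_left _ _
  have h3 : (expo h k : ℝ) + k * β ≤ -(1 + δ) + (-(1 / 2 : ℝ)) * t := by
    unfold expo
    split_ifs with hk1
    · subst hk1
      have : t = 0 := by rw [ht]; norm_num
      rw [this, hβ]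
      push_cast
      nlinarith
    · have hk2 : 2 ≤ k := by omega
      have hk2R : (2 : ℝ) ≤ k := by exact_mod_cast hk2
      have : t = k - 2 := by rw [ht]; exact max_eq_left (by linarith)
      rw [this]
      have hdiv : ((5 * h * k / 2 : ℕ) : ℝ) ≤ 5 * h * k / 2 := by
        have := Nat.cast_div_le (α := ℝ) (m := 5 * h * k) (n := 2)
        push_cast at this
        exact this
      have hkβ : (5 * (h : ℝ) * k / 2) + k * β = k * (-(1 / 2) - δ) := by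
        rw [hβ]; ring
      nlinarith
  have h4 : q ^ ((-(1 / 2 : ℝ)) * t) ≤ 2 * ((2 : ℝ) ^ (-(1 / 2 : ℝ))) ^ k := by
    calc q ^ ((-(1 / 2 : ℝ)) * t) ≤ (2 : ℝ) ^ ((-(1 / 2 : ℝ)) * t) := by
          apply Real.rpow_le_rpow_of_nonpos (by norm_num) hq2
          nlinarith
      _ ≤ (2 : ℝ) ^ ((-(1 / 2 : ℝ)) * ((k : ℝ) - 2)) := by
          apply Real.rpow_le_rpow_of_exponent_le (by norm_num)
          nlinarith
      _ = 2 * ((2 : ℝ) ^ (-(1 / 2 : ℝ))) ^ k := by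
          rw [← Real.rpow_natCast, ← Real.rpow_mul (by norm_num)]
          rw [show (-(1 / 2 : ℝ)) * ((k : ℝ) - 2) = 1 + (-(1 / 2 : ℝ)) * k by ring]
          rw [Real.rpow_add (by norm_num), Real.rpow_one]
  calc (Nat.card (Sol (corona h) (𝓞 K ⧸ P ^ k)) : ℝ) * q ^ ((k : ℝ) * β)
      ≤ (h * (k + 1 : ℝ) ^ h * q ^ (expo h k : ℝ)) * q ^ ((k : ℝ) * β) := by
        apply mul_le_mul_of_nonneg_right h1 (by positivity)
    _ = (h * (k + 1 : ℝ) ^ h) * q ^ ((expo h k : ℝ) + k * β) := by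
        rw [Real.rpow_add hq0]; ring
    _ ≤ (h * (k + 1 : ℝ) ^ h) * q ^ (-(1 + δ) + (-(1 / 2 : ℝ)) * t) := by
        apply mul_le_mul_of_nonneg_left _ (by positivity)
        exact Real.rpow_le_rpow_of_exponent_le hq1 h3
    _ = (h * (k + 1 : ℝ) ^ h) * q ^ ((-(1 / 2 : ℝ)) * t) * q ^ (-(1 + δ)) := by
        rw [Real.rpow_add hq0]; ring
    _ ≤ (h * (k + 1 : ℝ) ^ h) * (2 * ((2 : ℝ) ^ (-(1 / 2 : ℝ))) ^ k) * q ^ (-(1 + δ)) := by
        apply mul_le_mul_of_nonneg_right _ (by positivity)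
        exact mul_le_mul_of_nonneg_left h4 (by positivity)
    _ = cser h k * q ^ (-(1 + δ)) := by unfold cser; ring

/-- Summability of the weighted counts. -/
lemma gfun_summable (hh : 3 ≤ h) {δ : ℝ} (hδ : 0 < δ) :
    Summable fun I : {I : Ideal (𝓞 K) // I ≠ ⊥} =>
      gfun h ((h * h + h) / 2 - 2 * h - ((h + 1) ^ 2 / 2 + δ)) I.1 := by
  refine summable_multiplicative (gfun h ((h * h + h) / 2 - 2 * h - ((h + 1) ^ 2 / 2 + δ)))
    ?_ ?_ ?_ (∑' k, cser h k) (1 + δ) (tsum_nonneg (cser_nonneg h)) (by linarith) ?_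
  · intro I
    unfold gfun
    positivity
  · unfold gfun
    rw [card_sol_one, map_one]
    simp
  · intro I J hIJ
    unfold gfun
    rw [card_sol_mul I J hIJ, map_mul, Nat.cast_mul, Nat.cast_mul,
      Real.mul_rpow (Nat.cast_nonneg _) (Nat.cast_nonneg _)]
    ring
  · intro P hP hP0 M
    calc ∑ k ∈ Finset.Icc 1 M, gfun h ((h * h + h) / 2 - 2 * h - ((h + 1) ^ 2 / 2 + δ)) (P ^ k)
        ≤ ∑ k ∈ Finset.Icc 1 M, cser h k * (Ideal.absNorm P : ℝ) ^ (-(1 + δ)) :=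
          Finset.sum_le_sum fun k hk =>
            gfun_pow_le hh hδ P hP hP0 (Finset.mem_Icc.1 hk).1
      _ = (∑ k ∈ Finset.Icc 1 M, cser h k) * (Ideal.absNorm P : ℝ) ^ (-(1 + δ)) := by
          rw [Finset.sum_mul]
      _ ≤ (∑' k, cser h k) * (Ideal.absNorm P : ℝ) ^ (-(1 + δ)) := by
          apply mul_le_mul_of_nonneg_right _ (by positivity)
          exact (cser_summable h).sum_le_tsum _ (fun k _ => cser_nonneg h k)

/-- The class number in terms of the weighted count. -/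
lemma class_eq_gfun (I : Ideal (𝓞 K)) (hI : I ≠ ⊥) (σ : ℝ) :
    (numConjClasses (GraphicalGroup (corona h) (𝓞 K ⧸ I)) : ℝ) * (Ideal.absNorm I : ℝ) ^ (-σ) =
      gfun h ((h * h + h) / 2 - 2 * h - σ) I := by
  have hfin : Finite (𝓞 K ⧸ I) := finite_quot I hI
  have h1 := class_count (Γ := corona h) (R := 𝓞 K ⧸ I)
  rw [card_V, card_quot] at h1
  set N : ℕ := Ideal.absNorm I with hN
  have hN0 : N ≠ 0 := fun h => hI (Ideal.absNorm_eq_zero_iff.1 h)
  have hNR : (0 : ℝ) < N := by exact_mod_cast Nat.pos_of_ne_zero hN0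
  have h2 : (Nat.card (OEdge (corona h)) : ℝ) = (h * h + h) / 2 := by
    have := two_mul_card_edge (h := h)
    have h3 : (2 : ℝ) * (Nat.card (OEdge (corona h)) : ℝ) = h * h + h := by exact_mod_cast this
    linarith
  have h4 : (numConjClasses (GraphicalGroup (corona h) (𝓞 K ⧸ I)) : ℝ) * (N : ℝ) ^ ((2 * h : ℝ)) =
      (Nat.card (Sol (corona h) (𝓞 K ⧸ I)) : ℝ) * (N : ℝ) ^ (((h : ℝ) * h + h) / 2) := by
    rw [← h2, Real.rpow_natCast]
    have h5 : ((N : ℝ) ^ ((2 * h : ℝ))) = (N : ℝ) ^ (2 * h) := by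
      rw [← Real.rpow_natCast]; push_cast; rfl
    rw [h5]
    exact_mod_cast h1
  unfold gfun
  rw [show ((h : ℝ) * h + h) / 2 - 2 * h - σ = (((h : ℝ) * h + h) / 2) + (-(2 * h)) + (-σ) by ring,
    Real.rpow_add hNR, Real.rpow_add hNR, ← mul_assoc, ← mul_assoc, ← h4]
  have h6 : ((N : ℝ) ^ ((2 * h : ℝ))) * (N : ℝ) ^ (-(2 * h : ℝ)) = 1 := by
    rw [← Real.rpow_add hNR]; simp
  rw [mul_assoc (numConjClasses (GraphicalGroup (corona h) (𝓞 K ⧸ I)) : ℝ), h6, mul_one]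

end Pool.Agent.Work.MP_2f42a7_al
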